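import Pool.Agent.Lib.MP_7548d4_gt.Main
import Pool.Agent.Lib.MP_7548d4_gt.F.Final

/-!
# The Busemann inequality for k-intersection bodies
-/

set_option autoImplicit false

namespace Pool.Agent.Results.MP_7548d4_gt.BusemannAll

open MeasureTheory Pool.Agent.Lib.MP_7548d4_gt

/-- The Lebesgue measure of a subset of a finite-dimensional inner product space. -/
noncomputable def leb {E : Type} [NormedAddCommGroup E] [InnerProductSpace ℝ E]
    [FiniteDimensional ℝ E] [MeasurableSpace E] [BorelSpace E] (A : Set E) : ENNReal :=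
  volume A

/-- The Lebesgue measure, in the subspace `H`, of the section of `A` by `H`. -/
noncomputable def sectionVol {E : Type} [NormedAddCommGroup E] [InnerProductSpace ℝ E]
    [FiniteDimensional ℝ E] [MeasurableSpace E] [BorelSpace E] (H : Submodule ℝ E) (A : Set E) :
    ENNReal :=
  leb {x : H | (x : E) ∈ A}

/-- The Lebesgue measure of a set of `ℝ^n`, as a real number. -/
noncomputable def vol {n : ℕ} (A : Set (EE n)) : ℝ := (leb A).toReal

/-- `L` is the `k`-intersection body of `K`: for every `k`-dimensional subspace `H`, the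
`(n - k)`-dimensional volume of `K ∩ H^⊥` is the `k`-dimensional volume of `L ∩ H`. -/
def HasKIntersectionBody {n : ℕ} (k : ℕ) (K L : Set (EE n)) : Prop :=
  ∀ H : Submodule ℝ (EE n), Module.finrank ℝ H = k → sectionVol Hᗮ K = sectionVol H L

/-- If `k ≥ 1`, `2 k ≤ n`, and the origin-symmetric star body `K` has the `k`-intersection
body `L`, then `|L| ^ k ≤ C_{n,k} |K| ^ (n - k)`, with equality of constants for balls. -/
theorem result (n k : ℕ) (hk : 1 ≤ k) (hkn : 2 * k ≤ n) (K L : Set (EE n))
    (hK : IsStarBody K) (hL : IsStarBody L) (hKs : ∀ x ∈ K, -x ∈ K) (hLs : ∀ x ∈ L, -x ∈ L)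
    (h : HasKIntersectionBody k K L) :
    vol L ^ k ≤
      kap (n - k) ^ n * kap k ^ (-(n : ℤ)) * kap n ^ (2 * (k : ℤ) - (n : ℤ)) *
        vol K ^ (n - k) := by
  have h0 : IsKIntersectionBody k K L := fun H hH => h H hH
  have h1 : (MeasureTheory.volume L).toReal ^ k ≤
      kap (n - k) ^ n / (kap k ^ n * kap n ^ (n - 2 * k)) *
        (MeasureTheory.volume K).toReal ^ (n - k) := by
    rcases hkn.eq_or_lt with h2 | h2
    · exact busemann_dvd hk le_rfl (by omega : n = k * (1 + 1)) hK hL hKs hLs h0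
    · exact F.busemann_full hk h2 hK hL hKs hLs h0
  refine h1.trans (le_of_eq ?_)
  unfold vol leb
  congr 1
  have e1 : kap k ^ (-(n : ℤ)) = (kap k ^ n)⁻¹ := by
    rw [zpow_neg, zpow_natCast]
  have e2 : kap n ^ (2 * (k : ℤ) - (n : ℤ)) = (kap n ^ (n - 2 * k))⁻¹ := by
    have : (2 * (k : ℤ) - (n : ℤ)) = -((n - 2 * k : ℕ) : ℤ) := by
      push_cast [hkn]
      ring
    rw [this, zpow_neg, zpow_natCast]
  rw [e1, e2, div_eq_mul_inv, mul_inv, mul_assoc]

end Pool.Agent.Results.MP_7548d4_gt.BusemannAll
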